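import Pool.Agent.MP_3ee8cb_gt.D3.Spec
import Pool.Agent.MP_3ee8cb_gt.CR.RFD

/-! Rigidity in dimension three from the blocks. -/

namespace Pool.Agent.MP_3ee8cb_gt.D3

open Set MeasureTheory
open CR (Met UT)
open scoped RealInnerProductSpace

theorem sph_int {f : V → ℝ} (h : ContinuousOn f {a | ‖a‖ = 1}) :
    Integrable (fun a : Metric.sphere (0 : V) 1 => f a) (volume : Measure V).toSphere :=
  Continuous.integrable_of_hasCompactSupport
    (h.comp_continuous continuous_subtype_val fun a => by simp)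
    (HasCompactSupport.of_compactSpace _)

theorem Lk.sec {h : Met 3} {C : TB.Chr 3} {Ψ : ℝ → UT h → UT h} {m : MF} (l : Lk h C Ψ m)
    (o : m.OK) (y a b : V) : ⟪m.K y a b b, a⟫ =
      h y (TB.Rm C y (m.R y a) (m.R y b) (m.R y b)) (m.R y a) ∧
    h y (m.R y a) (m.R y a) * h y (m.R y b) (m.R y b) - h y (m.R y a) (m.R y b) ^ 2 =
      ‖a‖ ^ 2 * ‖b‖ ^ 2 - ⟪a, b⟫ ^ 2 := by
  rw [l.curv, ← l.orth y, o.RS, l.orth, l.orth, l.orth, real_inner_self_eq_norm_sq,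
    real_inner_self_eq_norm_sq]
  exact ⟨rfl, rfl⟩

theorem lo_le {m : MF} {lo hi : ℝ} (h1 : m.Up lo) (h2 : m.Dn hi) : lo ≤ hi := by
  have := (h1 0 (EuclideanSpace.single 0 1) (EuclideanSpace.single 1 1)).trans (h2 _ _ _)
  simpa [EuclideanSpace.inner_single_left] using this

theorem fib {m : MF} {σ : V → V × V} {lo hi c : ℝ} (h0 : 0 ≤ hi + lo) (hc : (hi - lo) / 2 ≤ c)
    (c1 : ContinuousOn (m.dt σ 0) {a | ‖a‖ = 1}) (c2 : ContinuousOn (m.dl σ) {a | ‖a‖ = 1})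
    (n0 : ∀ a, ‖a‖ = 1 → m.dt σ 0 a ≠ 0) (ar : sph (m.ar σ) ≤ 0)
    (gb : sph (fun a => |m.dt σ 0 a| - (hi - lo) / 2 * |m.dl σ a| - (hi + lo) / 2 * m.ar σ a) ≤
      sph fun _ => 1) : sph (fun a => 2 * (|m.dt σ 0 a| - c * |m.dl σ a| - 1)) ≤ 0 := by
  have c3 : ContinuousOn (m.ar σ) {a | ‖a‖ = 1} := (c1.abs.div c1 n0).mul c2
  have i1 := sph_int c1.abs
  have i2 := sph_int c2.abs
  have p : 0 ≤ sph fun a => |m.dl σ a| := integral_nonneg fun _ => abs_nonneg _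
  have e : ∀ k l : ℝ, ∀ f : V → ℝ, ContinuousOn f {a | ‖a‖ = 1} →
      sph (fun a => |m.dt σ 0 a| - k * |m.dl σ a| - l * f a) =
        sph (fun a => |m.dt σ 0 a|) - k * sph (fun a => |m.dl σ a|) - l * sph f := by
    intro k l f hf
    have := integral_sub (i1.sub (i2.const_mul k)) ((sph_int hf).const_mul l)
    have h2 := integral_sub i1 (i2.const_mul k)
    simp only [Pi.sub_apply, integral_const_mul] at this h2
    unfold sph
    rw [this, h2]
  rw [e _ _ _ c3] at gb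
  have e2 := e c 1 (fun _ => 1) continuousOn_const
  have e3 : sph (fun a => 2 * (|m.dt σ 0 a| - c * |m.dl σ a| - 1)) =
      2 * sph (fun a => |m.dt σ 0 a| - c * |m.dl σ a| - 1 * 1) := by
    unfold sph
    rw [integral_const_mul, mul_one]
  rw [e3, e2]
  nlinarith [mul_nonneg h0 (neg_nonneg.2 ar), mul_nonneg (sub_nonneg.2 hc) p]

theorem mainA (jac : SJAC) (frm : SFRM) (had : SHAD) (act : SACT) (flp : SFLP) (sc1 : SC1)
    (scf : SCF) (ssy : SSY) (sod : SOD) (wid : SWID) (sar : SAR) (sgb : SGB) (ssc : SSC)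
    (int : SINT) (fin : SEND) : MainA := by
  intro g h _ C' Γ Λ _ _ _ _ Φ Ψ ρ F qg qh _ ch dΓ dΛ cj a hi ha hhi ⟨C, cg, kg⟩ kh f1 f2
  have kh' : TB.CurvLe h a := ⟨C', ch, fun x u v => (kh x u v).2⟩
  obtain ⟨m, o, l⟩ := frm g C Γ Φ qg cg
  obtain ⟨m', o', l'⟩ := frm h C' Λ Ψ qh ch
  have j := jac m o
  have j' := jac m' o'
  obtain ⟨O, aO⟩ := act g C Γ Φ qg cg m o l dΓ
  obtain ⟨O', aO'⟩ := act h C' Λ Ψ qh ch m' o' l' dΛ
  obtain ⟨lg, hl, -⟩ := had h C' Λ Ψ qh ch m' a o' j' l' ha kh'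
  obtain ⟨mn, s, F', e, cj', fl⟩ := flp g h C C' Γ Λ Φ Ψ ρ F qg qh cg ch dΓ dΛ cj a ha kh'
  obtain ⟨g1, g2⟩ := sc1 g h C C' Γ Λ Φ Ψ ρ F qg qh cg ch dΓ dΛ cj s F' e f1 f2
  obtain ⟨φ, cf, eq⟩ := scf g h C C' Γ Λ Φ Ψ ρ F' qg qh cg ch dΓ dΛ cj' m m' O O' o j o' j' l l'
    aO aO' mn fl g1 g2
  have u0 : m.Up 0 := fun y u v => by
    have := kg y (m.R y u) (m.R y v)
    rw [(l.sec o y u v).1]
    linarith
  have u1 : m'.Up (a ^ 2) := fun y u v => by
    have := (kh y (m'.R y u) (m'.R y v)).2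
    rw [(l'.sec o' y u v).1, ← (l'.sec o' y u v).2]
    linarith
  have d1 : m'.Dn hi := fun y u v => by
    have := (kh y (m'.R y u) (m'.R y v)).1
    rw [(l'.sec o' y u v).1, ← (l'.sec o' y u v).2]
    linarith
  have u2 : m'.Up 0 := fun y u v => le_trans (by
    have := real_inner_mul_inner_self_le u v
    rw [real_inner_self_eq_norm_sq, real_inner_self_eq_norm_sq] at this
    nlinarith [mul_nonneg (sq_nonneg a) (sub_nonneg.2 this)]) (u1 y u v)
  obtain ⟨sy, ft⟩ := ssy m m' φ a hi o j o' j' cf ha u0 u1 d1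
  obtain ⟨⟨T₀, gd⟩, ric⟩ := sod m m' φ a hi o j o' j' cf ha u0 u1 d1 sy
  have a2 : 0 < a ^ 2 := by positivity
  set c := √(max ((hi - a ^ 2) / 2) (a ^ 2 / 2)) with hc
  have c0 : 0 < max ((hi - a ^ 2) / 2) (a ^ 2 / 2) := lt_max_of_lt_right (by positivity)
  have cs : c ^ 2 = max ((hi - a ^ 2) / 2) (a ^ 2 / 2) := Real.sq_sqrt c0.le
  have cp : 0 < c := Real.sqrt_pos.2 c0
  have cl : c ^ 2 < a ^ 2 := by rw [cs]; exact max_lt (by linarith) (by linarith)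
  replace ric := ric c cp (lt_of_pow_lt_pow_left₀ 2 ha.le cl)
  have sc := ssc m m' φ Γ Λ ρ O O' o o' cf aO aO' eq
  have sub : {z : V × V | ‖z.2‖ = 1} ⊆ {z | z.2 ≠ 0} := fun z hz e => by simp [e] at hz
  have t := fun s => (sc.cdt s).mono sub
  have dl := sc.cdl.mono sub
  have n0 := fun z hz => (ric z hz).ne 0 (by simpa using cp.le)
  have key := int m Γ O (fun z => m'.mu (fr φ z.1) c z.2)
    (fun z => 2 * (|m'.dt (fr φ z.1) 0 z.2| - c ^ 2 * |m'.dl (fr φ z.1) z.2| - 1))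
    (fun z => (a ^ 2 - c ^ 2) * m'.sq (fr φ z.1) z.2) o j aO (CR.fd 3 g Γ qg.rp.deck)
    ((((t c).log fun z hz => (ric z hz).ne c (abs_of_pos cp).le).sub ((t (-c)).log fun z hz =>
      (ric z hz).ne (-c) (by rw [abs_neg, abs_of_pos cp]))).div_const _)
    (continuousOn_const.mul (((t 0).abs.sub (continuousOn_const.mul dl.abs)).sub
      continuousOn_const))
    (continuousOn_const.mul ((((((t 1).sub (t (-1))).div_const 2).pow 2).sub
      ((continuousOn_const.mul dl).mul (t 0))).div ((t 0).pow 2) fun z hz =>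
        pow_ne_zero 2 (n0 z hz)))
    (fun γ z hz => by
      obtain ⟨ε, hε, h1, h2⟩ := sc.inv γ z hz
      simp only [MF.mu, MF.sq, h1, h2]
      rcases (abs_eq zero_le_one).1 hε with rfl | rfl
      · simp
      · refine ⟨by simp, by simp, ?_⟩
        ring)
    (fun z hz => ⟨mul_nonneg (sub_pos.2 cl).le (ric z hz).pos, (ric z hz).der.imp fun d hd =>
      ⟨hd.1, by linarith [hd.2]⟩⟩)
    fun x => by
      have G : m'.Good (fr φ x) (max T₀ 1) := ⟨(gd x).inj, (gd x).sym, fun a e t h1 h2 h3 h4 =>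
        (gd x).pos a e t h1 h2 h3 ((le_max_left _ _).trans h4)⟩
      have T : (0 : ℝ) < max T₀ 1 := lt_max_of_lt_right one_pos
      have W := wid m' lg _ _ o' j' u2 hl (ft x) G T
      have i : ContinuousOn (fun a : V => (x, a)) {a | ‖a‖ = 1} := by fun_prop
      exact fib (lo := a ^ 2) (hi := hi) (by linarith [lo_le u1 d1]) (cs ▸ le_max_left _ _)
        ((t 0).comp i fun _ h => h) (dl.comp i fun _ h => h) (fun b hb => n0 (x, b) hb)
        (sar m' lg _ _ o' j' u2 hl (ft x) G T W) (sgb m' lg _ _ o' j' u2 hl (ft x) G T W _ _ u1 d1)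
  exact fin g h C C' Γ Λ Φ Ψ ρ F' qg qh cg ch dΓ dΛ cj' m m' O O' φ lg o j o' j' l l' aO aO' hl cf
    eq fun x b hb => (ric (x, b) hb).zero
      ((mul_eq_zero.1 (key (x, b) hb)).resolve_left (sub_pos.2 cl).ne')

end Pool.Agent.MP_3ee8cb_gt.D3
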