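import Mathlib

/-! Moving frames in dimension three, fronts and conjugacies: working definitions. -/

namespace Pool.Agent.MP_3ee8cb_gt.D3

open Set MeasureTheory
open scoped RealInnerProductSpace

noncomputable section

abbrev V := EuclideanSpace ℝ (Fin 3)

/-- A frame `R`, its inverse `S`, the connection form `om` and the geodesic flow `Z` on pairs
(point, frame components of the velocity). -/
structure MF where
  R : V → V →L[ℝ] V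
  S : V → V →L[ℝ] V
  om : V → V →L[ℝ] V →L[ℝ] V
  Z : ℝ → V × V → V × V

namespace MF

variable (m : MF)

/-- The geodesic vector field. -/
def vf (z : V × V) : V × V := (m.R z.1 z.2, -m.om z.1 (m.R z.1 z.2) z.2)

/-- The curvature form. -/
def Om (y u v c : V) : V := fderiv ℝ m.om y u v c - fderiv ℝ m.om y v u c +
  m.om y u (m.om y v c) - m.om y v (m.om y u c)

/-- The curvature tensor `R(a, b) c` in the frame. -/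
def K (y a b c : V) : V := m.Om y (m.R y a) (m.R y b) c

/-- The horizontal part of a tangent vector at `z`. -/
def hor (z : V × V) : V × V →L[ℝ] V := (m.S z.1).comp (.fst ℝ V V)

/-- The vertical part of a tangent vector at `z`. -/
def ver (z : V × V) : V × V →L[ℝ] V :=
  .snd ℝ V V + ((m.om z.1).flip z.2).comp (.fst ℝ V V)

structure OK : Prop where
  cR : ContDiff ℝ 2 m.R
  cS : ContDiff ℝ 2 m.S
  com : ContDiff ℝ 1 m.om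
  SR : ∀ y a, m.S y (m.R y a) = a
  RS : ∀ y u, m.R y (m.S y u) = u
  skew : ∀ y u a b, ⟪m.om y u a, b⟫ = -⟪a, m.om y u b⟫
  tors : ∀ y u v, fderiv ℝ m.S y u v - fderiv ℝ m.S y v u + m.om y u (m.S y v) -
    m.om y v (m.S y u) = 0
  cZ : ContDiff ℝ 1 fun q : ℝ × V × V => m.Z q.1 q.2
  zero : ∀ z, m.Z 0 z = z
  add : ∀ s t z, m.Z (s + t) z = m.Z s (m.Z t z)
  ode : ∀ z t, HasDerivAt (fun s => m.Z s z) (m.vf (m.Z t z)) t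

/-- The value of the Jacobi field with initial tangent vector `ξ` at `z`. -/
def J (z ξ : V × V) (t : ℝ) : V := m.hor (m.Z t z) (fderiv ℝ (m.Z t) z ξ)

/-- Its covariant derivative. -/
def J' (z ξ : V × V) (t : ℝ) : V := m.ver (m.Z t z) (fderiv ℝ (m.Z t) z ξ)

/-- The connection form along the orbit of `z`. -/
def w (z : V × V) (t : ℝ) : V →L[ℝ] V := m.om (m.Z t z).1 (m.R (m.Z t z).1 (m.Z t z).2)

/-- Consequences of `OK`. -/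
structure Jac : Prop where
  norm : ∀ t z, ‖(m.Z t z).2‖ = ‖z.2‖
  scale : ∀ (t r : ℝ) y b, m.Z t (y, r • b) = ((m.Z (r * t) (y, b)).1, r • (m.Z (r * t) (y, b)).2)
  cK : Continuous fun q : V × V × V × V => m.K q.1 q.2.1 q.2.2.1 q.2.2.2
  lK : ∀ y, ∃ L : V →L[ℝ] V →L[ℝ] V →L[ℝ] V, ∀ a b c, m.K y a b c = L a b c
  aK : ∀ y a b c, m.K y a b c = -m.K y b a c
  sK : ∀ y a b c d, ⟪m.K y a b c, d⟫ = -⟪c, m.K y a b d⟫
  pK : ∀ y a b c d, ⟪m.K y a b c, d⟫ = ⟪m.K y c d a, b⟫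
  d1 : ∀ z ξ t, HasDerivAt (m.J z ξ) (m.J' z ξ t - m.w z t (m.J z ξ t)) t
  d2 : ∀ z ξ t, HasDerivAt (m.J' z ξ)
    (-m.K (m.Z t z).1 (m.J z ξ t) (m.Z t z).2 (m.Z t z).2 - m.w z t (m.J' z ξ t)) t
  par : ∀ z, ∃ O : ℝ → V ≃ₗᵢ[ℝ] V, (∀ a, O 0 a = a) ∧ (∀ t, O t z.2 = (m.Z t z).2) ∧
    ∀ a t, HasDerivAt (fun s => O s a) (-m.w z t (O t a)) t
  symp : ∀ z ξ η t, ⟪m.J z ξ t, m.J' z η t⟫ - ⟪m.J' z ξ t, m.J z η t⟫ =
    ⟪m.hor z ξ, m.ver z η⟫ - ⟪m.ver z ξ, m.hor z η⟫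
  vol : ∀ z t, |(m.S (m.Z t z).1).det| * |(fderiv ℝ (m.Z t) z).det| = |(m.S z.1).det|

/-- All sectional curvatures are at most `-lo`. -/
def Up (lo : ℝ) : Prop := ∀ y a b, lo * (‖a‖ ^ 2 * ‖b‖ ^ 2 - ⟪a, b⟫ ^ 2) ≤ -⟪m.K y a b b, a⟫

/-- All sectional curvatures are at least `-hi`. -/
def Dn (hi : ℝ) : Prop := ∀ y a b, -⟪m.K y a b b, a⟫ ≤ hi * (‖a‖ ^ 2 * ‖b‖ ^ 2 - ⟪a, b⟫ ^ 2)

/-- `lg` inverts the exponential map; `‖lg (y, z)‖` is the distance. -/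
structure Had (lg : V × V → V) : Prop where
  c1 : ContDiff ℝ 1 lg
  ex : ∀ y z, (m.Z 1 (y, lg (y, z))).1 = z
  xe : ∀ y b, lg (y, (m.Z 1 (y, b)).1) = b
  rev : ∀ y z, lg (z, y) = -(m.Z 1 (y, lg (y, z))).2
  tri : ∀ x y z, ‖lg (x, z)‖ ≤ ‖lg (x, y)‖ + ‖lg (y, z)‖
  hinge : ∀ y b b', ‖b - b'‖ ≤ ‖lg ((m.Z 1 (y, b)).1, (m.Z 1 (y, b')).1)‖
  grad : ∀ q ξ : V × V, fderiv ℝ (fun q => ‖lg q‖ ^ 2 / 2) q ξ =
    -⟪lg q, m.S q.1 ξ.1⟫ - ⟪lg q.swap, m.S q.2 ξ.2⟫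

/-- A flip invariant front: a Legendrian sphere, extended homogeneously. -/
structure Front (σ : V → V × V) : Prop where
  c1 : ContDiffOn ℝ 1 σ {a | a ≠ 0}
  hom : ∀ (r : ℝ) a, r ≠ 0 → a ≠ 0 → σ (r • a) = ((σ a).1, r • (σ a).2)
  norm : ∀ a, a ≠ 0 → ‖(σ a).2‖ = ‖a‖
  leg : ∀ a e, a ≠ 0 → ⟪(σ a).2, m.hor (σ a) (fderiv ℝ σ a e)⟫ = 0
  sep : ∀ a a' t, ‖a‖ = 1 → ‖a'‖ = 1 → σ a' = m.Z t (σ a) → a' = a

/-- Second order facts on the moving front. -/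
structure Good (σ : V → V × V) (T₀ : ℝ) : Prop where
  inj : ∀ a e t, ‖a‖ = 1 → ⟪a, e⟫ = 0 → m.J' (σ a) (fderiv ℝ σ a e) t = 0 → e = 0
  sym : ∀ a e e' t, ‖a‖ = 1 → ⟪a, e⟫ = 0 → ⟪a, e'⟫ = 0 →
    ⟪m.J (σ a) (fderiv ℝ σ a e) t, m.J' (σ a) (fderiv ℝ σ a e') t⟫ =
      ⟪m.J' (σ a) (fderiv ℝ σ a e) t, m.J (σ a) (fderiv ℝ σ a e') t⟫
  pos : ∀ a e t, ‖a‖ = 1 → ⟪a, e⟫ = 0 → e ≠ 0 → T₀ ≤ t →
    0 < ⟪m.J (σ a) (fderiv ℝ σ a e) t, m.J' (σ a) (fderiv ℝ σ a e) t⟫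

/-- The horizontal derivative of a front; it kills `a`. -/
def A (σ : V → V × V) (a : V) : V →L[ℝ] V := (m.hor (σ a)).comp (fderiv ℝ σ a)

/-- The vertical derivative of a front; it sends `a` to the normal. -/
def A' (σ : V → V × V) (a : V) : V →L[ℝ] V := (m.ver (σ a)).comp (fderiv ℝ σ a)

/-- `det (A' + c A)`. -/
def dt (σ : V → V × V) (c : ℝ) (a : V) : ℝ := (m.A' σ a + c • m.A σ a).det

/-- The signed area element. -/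
def dl (σ : V → V × V) (a : V) : ℝ := (m.A σ a + (innerSL ℝ a).smulRight (σ a).2).det

/-- The area element with the sign of `det B`. -/
def ar (σ : V → V × V) (a : V) : ℝ := |m.dt σ 0 a| / m.dt σ 0 a * m.dl σ a

/-- `|B| ^ 2`. -/
def sq (σ : V → V × V) (a : V) : ℝ :=
  (((m.dt σ 1 a - m.dt σ (-1) a) / 2) ^ 2 - 2 * m.dl σ a * m.dt σ 0 a) / m.dt σ 0 a ^ 2

/-- The multiplier `tr artanh (c B) / c`. -/
def mu (σ : V → V × V) (c : ℝ) (a : V) : ℝ :=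
  (Real.log (m.dt σ c a) - Real.log (m.dt σ (-c) a)) / (2 * c)

end MF

/-- The integral over the unit sphere. -/
def sph (f : V → ℝ) : ℝ := ∫ a : Metric.sphere (0 : V) 1, f a ∂(volume : Measure V).toSphere

/-- A conjugacy of class `C¹` between the flows, homogeneous and flip equivariant. -/
structure CF (m m' : MF) (φ : V × V → V × V) : Prop where
  c1 : ContDiffOn ℝ 1 φ {z | z.2 ≠ 0}
  hom : ∀ (r : ℝ) x a, r ≠ 0 → a ≠ 0 → φ (x, r • a) = ((φ (x, a)).1, r • (φ (x, a)).2)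
  norm : ∀ z, z.2 ≠ 0 → ‖(φ z).2‖ = ‖z.2‖
  flow : ∀ t z, z.2 ≠ 0 → φ (m.Z t z) = m'.Z t (φ z)
  inj : InjOn φ {z | z.2 ≠ 0}
  surj : ∀ w : V × V, w.2 ≠ 0 → ∃ z : V × V, z.2 ≠ 0 ∧ φ z = w
  nl : ∀ t z, ‖z.2‖ = 1 → (m.Z t z).1 = z.1 → t = 0
  bdd : ∃ C : ℝ, ∀ z ξ : V × V, ‖z.2‖ = 1 →
    ‖m'.hor (φ z) (fderiv ℝ φ z ξ)‖ + ‖m'.ver (φ z) (fderiv ℝ φ z ξ)‖ ≤
      C * (‖m.hor z ξ‖ + ‖m.ver z ξ‖) ∧ ‖m.hor z ξ‖ + ‖m.ver z ξ‖ ≤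
      C * (‖m'.hor (φ z) (fderiv ℝ φ z ξ)‖ + ‖m'.ver (φ z) (fderiv ℝ φ z ξ)‖)

/-- The front over `x`. -/
def fr (φ : V × V → V × V) (x a : V) : V × V := φ (x, a)

/-- A group acts on points; `O γ x` is the derivative in the frames. -/
structure Act (m : MF) (Γ : Type) [Group Γ] [MulAction Γ V] (O : Γ → V → V ≃ₗᵢ[ℝ] V) : Prop where
  c1 : ∀ γ : Γ, ContDiff ℝ 1 fun z : V × V => (γ • z.1, O γ z.1 z.2)
  der : ∀ (γ : Γ) x u, m.S (γ • x) (fderiv ℝ (fun y : V => γ • y) x u) = O γ x (m.S x u)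
  one : ∀ x a, O 1 x a = a
  mul : ∀ (γ δ : Γ) x a, O (γ * δ) x a = O γ (δ • x) (O δ x a)
  hor : ∀ (γ : Γ) (z ξ : V × V), m.hor (γ • z.1, O γ z.1 z.2)
    (fderiv ℝ (fun z : V × V => (γ • z.1, O γ z.1 z.2)) z ξ) = O γ z.1 (m.hor z ξ)
  ver : ∀ (γ : Γ) (z ξ : V × V), m.ver (γ • z.1, O γ z.1 z.2)
    (fderiv ℝ (fun z : V × V => (γ • z.1, O γ z.1 z.2)) z ξ) = O γ z.1 (m.ver z ξ)
  flow : ∀ (γ : Γ) t (z : V × V), m.Z t (γ • z.1, O γ z.1 z.2) =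
    (γ • (m.Z t z).1, O γ (m.Z t z).1 (m.Z t z).2)
  cpt : ∃ K : Set V, IsCompact K ∧ ∀ x : V, ∃ γ : Γ, γ • x ∈ K

end

end Pool.Agent.MP_3ee8cb_gt.D3
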