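import Pool.Agent.MP_3ee8cb_gt.D3.Top
import Pool.Agent.MP_3ee8cb_gt.D3JC.Out
import Pool.Agent.MP_3ee8cb_gt.D3FL.RFM
import Pool.Agent.MP_3ee8cb_gt.D3FL.RCN
import Pool.Agent.MP_3ee8cb_gt.D3FL.RCV
import Pool.Agent.MP_3ee8cb_gt.D3FL.RGL
import Pool.Agent.MP_3ee8cb_gt.D3FL.RFC
import Pool.Agent.MP_3ee8cb_gt.TB.RGAM
import Pool.Agent.MP_3ee8cb_gt.TB.RODE
import Pool.Agent.MP_3ee8cb_gt.D3FL.HHAD
import Pool.Agent.MP_3ee8cb_gt.D3FL.HFLP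
import Pool.Agent.MP_3ee8cb_gt.D3AC.Act
import Pool.Agent.MP_3ee8cb_gt.D3SC.C1
import Pool.Agent.MP_3ee8cb_gt.D3SC.Cf
import Pool.Agent.MP_3ee8cb_gt.D3SC.Sc
import Pool.Agent.MP_3ee8cb_gt.D3LN.Al
import Pool.Agent.MP_3ee8cb_gt.D3OD.RicB
import Pool.Agent.MP_3ee8cb_gt.D3WI.Wid
import Pool.Agent.MP_3ee8cb_gt.D3GB.All
import Pool.Agent.MP_3ee8cb_gt.D3SI.Int
import Pool.Agent.MP_3ee8cb_gt.D3EN.End
import Pool.Agent.MP_3ee8cb_gt.D3MO.Fin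
import Pool.Agent.MP_3ee8cb_gt.D3AR.Fin
import Pool.Agent.MP_3ee8cb_gt.D3AR.RDBL
import Pool.Agent.MP_3ee8cb_gt.D3AR.RGEN
import Pool.Agent.MP_3ee8cb_gt.D3AR.RJC
import Pool.Agent.MP_3ee8cb_gt.D3AR.RLHS
import Pool.Agent.MP_3ee8cb_gt.D3AR.RLNK
import Pool.Agent.MP_3ee8cb_gt.D3AR.RMEA
import Pool.Agent.MP_3ee8cb_gt.D3AR.RPOL
import Pool.Agent.MP_3ee8cb_gt.D3AR.RROT
import Pool.Agent.MP_3ee8cb_gt.D3AR.RSAF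
import Pool.Agent.MP_3ee8cb_gt.D3AR.RWT
import Pool.Agent.MP_3ee8cb_gt.D3CT.Asm
import Pool.Agent.MP_3ee8cb_gt.D3CT.RB1
import Pool.Agent.MP_3ee8cb_gt.D3CT.RBg
import Pool.Agent.MP_3ee8cb_gt.D3CT.RBs
import Pool.Agent.MP_3ee8cb_gt.D3CT.RCon
import Pool.Agent.MP_3ee8cb_gt.D3CT.REv
import Pool.Agent.MP_3ee8cb_gt.D3CT.RFin
import Pool.Agent.MP_3ee8cb_gt.D3CT.RFr
import Pool.Agent.MP_3ee8cb_gt.D3CT.RFt
import Pool.Agent.MP_3ee8cb_gt.D3CT.RGn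
import Pool.Agent.MP_3ee8cb_gt.D3CT.RHs
import Pool.Agent.MP_3ee8cb_gt.D3CT.RNm
import Pool.Agent.MP_3ee8cb_gt.D3CT.RPc
import Pool.Agent.MP_3ee8cb_gt.D3CT.RRg
import Pool.Agent.MP_3ee8cb_gt.D3MO.Def
import Pool.Agent.MP_3ee8cb_gt.D3MO.Sph
import Pool.Agent.MP_3ee8cb_gt.D3MO.Tz

/-! Rigidity in dimension three under a conjugacy of class `C¹`: all blocks together. -/

namespace Pool.Agent.MP_3ee8cb_gt.D3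

theorem sFRM : SFRM := D3FL.frm_of TB.gam TB.ode D3FL.fm D3FL.cn D3FL.cv D3FL.gl D3FL.fc

open D3CT in
theorem sCNT : D3AR.SCNT := fun m lg σ T o j u h f g t w z n G =>
  asm D3MO.sMorse D3MO.sDef D3MO.sTz D3MO.sSph rowBs rowFt rowFr (rowGn D3MO.sGno) rowHs rowBg
    rowRg rowB1 rowEv rowNm rowPc rowCon rowFin m lg σ T o j u h f g t w z n ⟨G.1, G.2⟩

open D3AR in
theorem sAR : SAR := sar_fin saf jc wt pol rot mea lhs dbl gen lnk sCNT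

theorem allA : MainA := mainA sJAC sFRM D3FL.had sACT D3FL.flp (sC1_of sFRM) sCF LN.ssy sod45
  D3WI.swid sAR D3GB.sGB sSC sINT sEND

end Pool.Agent.MP_3ee8cb_gt.D3
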